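import Pool.Agent.U151.DB.ArcYD
import Pool.Agent.Results.MP_fe58d8_pr.DoublePoints

/-!
# The double points of all subpaths of the scaling limits of the exploration path

Critical bond percolation on `δ ℤ²` in a rectangle `D = (-A, B) × (0, H)`, with the counterclockwise
boundary arc from `a = t + i H` to `b = 0` wired and the other one dual-wired.  The exploration path
(if crossing probabilities are conformally invariant, its limit is chordal SLE₆) is parametrised by
its number of steps: `Rect.curve` is the piecewise linear curve on `[0, 1]` run at constant speed,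
and `Rect.time` is the number of steps times `δ ^ (7/4)`; `Rect.law` is the law of (curve, time).
Weak limits exist along a subsequence of every sequence of meshes.

For every weak limit, almost surely, simultaneously for ALL `0 ≤ s < t ≤ 1`: the points which the
curve visits at least twice between the times `s` and `t` have Hausdorff dimension exactly `3/4`, also
those of them which are in `D`, and the times in `[s, t]` at which the curve is at such a point have
dimension exactly `3/7`.

Definitions: `Pool.Agent.H984R4.NP.Model` (`Rect`, `pos`, `clamp`, `pl`, `X`, `Rect.D`, `Rect.dm`,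
`Rect.curve`, `Rect.time`, `Rect.law`), `Pool.Agent.H984R4.NP.Defs` (`Dm`, `Dm.edges`, `Dm.wir`,
`Dm.cfg`, `Dm.walk`, `Dm.len`) and `Pool.Agent.H984R3.Per.Defs` (states, `ae`, `mv`, `rt`, `nxt`,
`orb`).

The starting file `MP_fe58d8_pr.DoublePoints` has the double points of the whole curve and near its
end point, where they are found in independent annuli around this fixed point.  Here the curve has to
be followed: every strand of the interface in the bulk, of macroscopic size, is explored step by
step, and at the tips of longer and longer strands trials are made, in which two hooks of open and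
closed edges guide the interface to a fresh square with about `m ^ (3/4)` open edges with two open
arms, both sides of which are joined by closed dual paths to the dual side of the interface (the
trials are those of the starting files for the tracing path of the largest cluster).  A side potential
shows that this very strand visits such an edge on both sides, the two arms force a macroscopic
excursion between the two visits.  The probability that all of `K` trials fail is exponentially small
in `K`, the number of strands only polynomial, and the passage to the limit uses closed sets of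
curves, for all pairs of times at once.
-/

set_option autoImplicit false

namespace Pool.Agent.Results.MP_35f495_pr.ArcDoublePoints

open H984N MeasureTheory Filter Topology
open scoped ENNReal NNReal

/-- The points which `f` visits at least twice between the times `s` and `t`. -/
def doublePoints (f : C(unitInterval, ℂ)) (s t : unitInterval) : Set ℂ :=
  {z | ∃ a b : unitInterval, s ≤ a ∧ a < b ∧ b ≤ t ∧ f a = z ∧ f b = z}

/-- The times between `s` and `t` at which `f` is at such a point. -/
def doubleTimes (f : C(unitInterval, ℂ)) (s t : unitInterval) : Set unitInterval :=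
  {a | (s ≤ a ∧ a ≤ t) ∧ ∃ b, (s ≤ b ∧ b ≤ t) ∧ b ≠ a ∧ f b = f a}

theorem image_doubleTimes (f : C(unitInterval, ℂ)) (s t : unitInterval) :
    f '' doubleTimes f s t = doublePoints f s t := by
  ext z
  constructor
  · rintro ⟨a, ⟨⟨g1, g2⟩, b, ⟨g3, g4⟩, h1, h2⟩, rfl⟩
    rcases lt_or_gt_of_ne h1 with h | h
    · exact ⟨b, a, g3, h, g2, h2, rfl⟩
    · exact ⟨a, b, g1, h, g4, rfl, h2⟩
  · rintro ⟨a, b, g1, h, g4, h1, h2⟩
    exact ⟨a, ⟨⟨g1, h.le.trans g4⟩, b, ⟨g1.trans h.le, g4⟩, h.ne', by rw [h1, h2]⟩, h1⟩

theorem dim_Icc {s t : unitInterval} (hst : s < t) : dimH (Set.Icc s t) = 1 := by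
  have hst' : (s : ℝ) < t := hst
  have h1 : (fun x : unitInterval => (x : ℝ)) '' Set.Icc s t = Set.Icc (s : ℝ) t := by
    ext y
    constructor
    · rintro ⟨x, hx, rfl⟩
      exact hx
    · intro hy
      exact ⟨⟨y, s.2.1.trans hy.1, hy.2.trans t.2.2⟩, hy, rfl⟩
  have h2 : Isometry (fun x : unitInterval => (x : ℝ)) := isometry_subtype_coe
  rw [← h2.dimH_image, h1]
  have h3 : (interior (Set.Icc (s : ℝ) t)).Nonempty := by
    rw [interior_Icc]
    exact Set.nonempty_Ioo.2 hst'
  rw [Real.dimH_of_nonempty_interior h3, Module.finrank_self, Nat.cast_one]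

theorem one_lt : (1 : ℝ≥0∞) < 7 / 4 := by
  rw [ENNReal.lt_div_iff_mul_lt (Or.inl (by norm_num)) (Or.inl (by norm_num))]
  norm_num

theorem two_thirds_lt : (2 / 3 : ℝ≥0∞) < 3 / 4 := by
  have a1 : (2 / 3 : ℝ≥0∞) = ENNReal.ofReal (2 / 3) := by
    rw [ENNReal.ofReal_div_of_pos (by norm_num)]; norm_num
  have a2 : (3 / 4 : ℝ≥0∞) = ENNReal.ofReal (3 / 4) := by
    rw [ENNReal.ofReal_div_of_pos (by norm_num)]; norm_num
  rw [a1, a2, ENNReal.ofReal_lt_ofReal_iff (by norm_num)]
  norm_num

/-- **The double points of all subpaths.**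
(1) Every sequence of meshes has a subsequence along which the law of the exploration path with its
natural time converges.  (2) For every limit, almost surely, for all `s < t` in `[0, 1]`: the points
visited at least twice between the times `s` and `t` have Hausdorff dimension exactly `3/4`, and so
have those which are in `D`; the times in `[s, t]` at which the curve is at such a point have
dimension exactly `3/7`. -/
theorem result (R : Rect) :
    (∀ δ : ℕ → ℝ, (∀ i, 0 < δ i) → Tendsto δ atTop (𝓝 0) →
      ∃ φ : ℕ → ℕ, StrictMono φ ∧ ∃ μ : ProbabilityMeasure X,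
        Tendsto (fun i => R.law (δ (φ i))) atTop (𝓝 μ)) ∧
    (∀ δ : ℕ → ℝ, (∀ i, 0 < δ i) → Tendsto δ atTop (𝓝 0) → ∀ μ : ProbabilityMeasure X,
      Tendsto (fun i => R.law (δ i)) atTop (𝓝 μ) →
      ∀ᵐ p ∂(μ : Measure X), ∀ s t : unitInterval, s < t →
        dimH (doublePoints p.1 s t) = 3 / 4 ∧ dimH (doublePoints p.1 s t ∩ R.D) = 3 / 4 ∧
          dimH (doubleTimes p.1 s t) = 3 / 7) := by
  obtain ⟨h1, h2⟩ := Pool.Agent.Results.MP_fe58d8_pr.UniformDimension.result R
  refine ⟨h1, fun δ hδ hlim μ hμ => ?_⟩
  filter_upwards [h2 δ hδ hlim μ hμ,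
    (Pool.Agent.Results.MP_fe58d8_pr.NaturalCurve.result R).2.2.2 δ hδ hlim μ hμ,
    (Pool.Agent.Results.MP_fe58d8_pr.DoublePoints.result R).2 δ hδ hlim μ hμ,
    H443B.dims R hδ hlim hμ, Pool.Agent.U151.DB.arcsD R hδ hlim hμ] with p hu hq hdb hd harc
  obtain ⟨-, -, -, hcl, -, -⟩ := hq
  obtain ⟨d1, -⟩ := hd
  obtain ⟨hup0, -, -⟩ := hdb
  intro s t hst
  obtain ⟨f, hf⟩ : ∃ f : C(unitInterval, ℂ), f = p.1 := ⟨_, rfl⟩
  rw [← hf] at hu hcl hup0 d1 harc ⊢
  have hns : ¬ (f '' Set.Icc s t).Subsingleton := by
    intro hcon
    have h3 := hu (Set.Icc s t)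
    rw [dimH_subsingleton hcon, dim_Icc hst, mul_one] at h3
    have h4 : (0 : ℝ≥0∞) < 7 / 4 := lt_trans one_pos one_lt
    exact absurd h3 h4.ne
  have hmeet : (f '' Set.Icc s t ∩ R.D).Nonempty := by
    by_contra hcon
    rw [Set.not_nonempty_iff_eq_empty] at hcon
    have h3 : f '' Set.Icc s t ⊆ Set.range f ∩ frontier R.D := by
      rintro _ ⟨x, hx, rfl⟩
      refine ⟨⟨x, rfl⟩, ?_⟩
      rw [frontier]
      refine ⟨hcl x, fun h6 => ?_⟩
      have h7 : f x ∈ f '' Set.Icc s t ∩ R.D := ⟨⟨x, hx, rfl⟩, interior_subset h6⟩
      rw [hcon] at h7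
      exact h7
    have h4 := dimH_mono h3
    rw [d1, hu, dim_Icc hst, mul_one] at h4
    exact absurd h4 (not_le.2 ((two_thirds_lt.trans (by
      rw [ENNReal.div_lt_iff (Or.inl (by norm_num)) (Or.inl (by norm_num))]
      norm_num)).trans one_lt))
  have hlow : (3 / 4 : ℝ≥0∞) ≤ dimH (doublePoints f s t) := by
    refine (harc s t hmeet hns).trans (dimH_mono ?_)
    rintro z ⟨a, b, c, ⟨g1, g2⟩, ⟨g3, g4⟩, g5, g6, g7⟩
    refine ⟨a, c, g1, lt_of_le_of_ne (g2.trans g3) ?_, g4, g5, g6⟩
    rintro rfl
    have h3 : b = a := le_antisymm g3 g2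
    rw [h3] at g7
    exact g7 g5
  have hsub : doublePoints f s t ⊆
      Pool.Agent.Results.MP_fe58d8_pr.DoublePoints.doublePoints f := by
    rintro z ⟨a, b, -, g2, -, g4, g5⟩
    exact ⟨a, b, g2, g4, g5⟩
  have hup : dimH (doublePoints f s t) ≤ 3 / 4 := (dimH_mono hsub).trans (le_of_eq hup0)
  have hall : dimH (doublePoints f s t) = 3 / 4 := le_antisymm hup hlow
  refine ⟨hall, ?_, ?_⟩
  · refine le_antisymm ((dimH_mono Set.inter_subset_left).trans hup) ?_
    rw [← Set.inter_union_sdiff (doublePoints f s t) R.D, dimH_union] at hlow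
    rcases le_max_iff.1 hlow with h | h
    · exact h
    · exfalso
      have h3 : doublePoints f s t \ R.D ⊆ Set.range f ∩ frontier R.D := by
        rintro z ⟨⟨a, b, -, -, -, g4, -⟩, hz⟩
        refine ⟨⟨a, g4⟩, ?_⟩
        rw [frontier]
        exact ⟨g4 ▸ hcl a, fun h6 => hz (interior_subset h6)⟩
      have h4 := h.trans (dimH_mono h3)
      rw [d1] at h4
      exact absurd h4 (not_le.2 two_thirds_lt)
  · apply Pool.Agent.TH966.DP.solve
    rw [← hu, image_doubleTimes, hall]

end Pool.Agent.Results.MP_35f495_pr.ArcDoublePoints
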