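import Pool.Agent.U154.NI.Fin

/-!
Critical bond percolation on the square lattice: the exact law of the iterated logarithm for the
number of nested layers around the origin (the one-point nesting statistics of the full scaling
limit CLE₆), with the centering and the variance predicted by conformal invariance.

`changes n ω` is the minimal number of colour changes of a path from the origin to the distance `n`,
i.e. the number of nested alternating (open / dual-open) layers around the origin.  All distances
`n` are considered in the same configuration `ω` of the whole lattice.

Definitions (in `Pool.Agent.H974R2.Model`, `Pool.Agent.H974R2.Infinite`,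
`Pool.Agent.H863R2.NL.Defs`): `sqLattice`, `bondLaw`, `hlf` (`= 1/2`), `openGraph`; `Pt`, `Corner`,
`Free`, `Change`, `ReachIn`, `norm2`, `changes`.

The law of the number of layers on the cylinder and the comparison with the plane are in
`Pool.Agent.H863R2`, `Pool.Agent.H450R4.NLMom`, the superadditivity and the link estimates in
`Pool.Agent.W819.EN` (starting repository); the proofs of this file (moderate deviations, maximal
inequalities, Borel-Cantelli arguments) are in `Pool.Agent.U154.NI` (helper154).
-/

set_option autoImplicit false

namespace Pool.Agent.Results.MP_35f495_pr.NestingIteratedLogarithm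

open MeasureTheory H974 Pool.Agent.H863R2.NL Filter
open scoped Real Topology

theorem result : ∀ᵐ ω ∂(bondLaw hlf),
    limsup (fun n : ℕ => ((changes n ω : ℝ) - Real.log n / (2 * √3 * π)) /
      √(2 * (2 / (3 * √3 * π) - 1 / (2 * π ^ 2)) * Real.log n *
        Real.log (Real.log (Real.log n)))) atTop = 1 ∧
    liminf (fun n : ℕ => ((changes n ω : ℝ) - Real.log n / (2 * √3 * π)) /
      √(2 * (2 / (3 * √3 * π) - 1 / (2 * π ^ 2)) * Real.log n *
        Real.log (Real.log (Real.log n)))) atTop = -1 := by
  have e : ∀ n : ℕ, cN * Real.log n = Real.log n / (2 * √3 * π) := by
    intro n
    unfold cN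
    ring
  filter_upwards [Pool.Agent.U154.NI.lil] with ω hω
  simp only [e] at hω
  exact hω

end Pool.Agent.Results.MP_35f495_pr.NestingIteratedLogarithm
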