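import Pool.Agent.U167.SA.Fact2

/-!
Critical bond percolation on `ℤ²` (`p = 1/2`), seen from a boundary point: sharp asymptotics of the
one-arm probability (exponent `1/3`), and factorization of all far connection probabilities, in all
half-planes with a rough boundary.

Coordinates: the column of the vertex `(u,v)` is `u - v`, its height is `u + v` (rotation by 45
degrees).  The straight half-plane is the set of the columns `≥ 0`.
-/

set_option autoImplicit false

namespace Pool.Agent.Results.MP_35f495_pr.SharpBoundaryArms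

open MeasureTheory Filter Topology

/-- Edges of `ℤ²`: `(u,v,true)` joins `(u,v)` and `(u+1,v)`; `(u,v,false)` joins `(u,v)` and
`(u,v+1)`. -/
abbrev Edge := ℤ × ℤ × Bool

/-- First end of an edge. -/
def fst (e : Edge) : ℤ × ℤ := (e.1, e.2.1)

/-- Second end of an edge. -/
def snd (e : Edge) : ℤ × ℤ := if e.2.2 then (e.1 + 1, e.2.1) else (e.1, e.2.1 + 1)

/-- Configurations (`true` = open). -/
abbrev Conf := Edge → Bool

/-- Critical bond percolation: independent fair coins on the edges. -/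
noncomputable def perc : Measure Conf :=
  Measure.infinitePi (fun _ : Edge => (PMF.uniformOfFintype Bool).toMeasure)

/-- The column of a vertex. -/
def col (x : ℤ × ℤ) : ℤ := x.1 - x.2

/-- The height of a vertex. -/
def height (x : ℤ × ℤ) : ℤ := x.1 + x.2

/-- `x` and `y` are the two ends of an open edge of `G`. -/
def OpenAdj (G : Set Edge) (ω : Conf) (x y : ℤ × ℤ) : Prop :=
  ∃ e ∈ G, ω e = true ∧ ((fst e = x ∧ snd e = y) ∨ (fst e = y ∧ snd e = x))

/-- For each pair of the list, a vertex of the first set is joined to a vertex of the second set by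
an open path of edges of `G`. -/
def Conn (G : Set Edge) (L : List (Set (ℤ × ℤ) × Set (ℤ × ℤ))) : Set Conf :=
  {ω | ∀ q ∈ L, ∃ x ∈ q.1, ∃ y ∈ q.2, Relation.ReflTransGen (OpenAdj G ω) x y}

/-- A vertex of `A` is joined to the column `n` by an open path of edges of `G`. -/
def Arm (G : Set Edge) (A : Set (ℤ × ℤ)) (n : ℤ) : Set Conf := Conn G [(A, {x | col x = n})]

/-- The half-plane with the boundary line `w`: the edges with both ends in the set of the vertices
of height `h` and column at least `w h`, `h ∈ ℤ`. -/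
def Half (w : ℤ → ℤ) : Set Edge :=
  {e | w (height (fst e)) ≤ col (fst e) ∧ w (height (snd e)) ≤ col (snd e)}

/-- `G` and `D` differ in finitely many edges. -/
def FinDiff (G D : Set Edge) : Prop := ((G \ D) ∪ (D \ G)).Finite

/-- The event depends on finitely many edges. -/
def IsLocal (E : Set Conf) : Prop :=
  ∃ T : Finset Edge, ∀ ω ω' : Conf, (∀ e ∈ T, ω e = ω' e) → (ω ∈ E ↔ ω' ∈ E)

/-- The edges with both ends in the box `|u| ≤ r`, `|v| ≤ r`. -/
def Box (r : ℕ) : Set Edge := {e | (|(fst e).1| ≤ r ∧ |(fst e).2| ≤ r) ∧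
  (|(snd e).1| ≤ r ∧ |(snd e).2| ≤ r)}

/-- `G` in the box of radius `s`, `O` outside. -/
def Splice (s : ℕ) (G O : Set Edge) : Set Edge := (G ∩ Box s) ∪ (O \ Box s)

/-- The set of vertices lies outside the box. -/
def Beyond (r : ℕ) (S : Set (ℤ × ℤ)) : Prop := ∀ x ∈ S, (r:ℤ) < |x.1| ∨ (r:ℤ) < |x.2|

/-- The event is measurable and depends only on edges which are not in the box. -/
def IsFar (r : ℕ) (V : Set Conf) : Prop :=
  MeasurableSet V ∧ ∀ ω ω' : Conf, (∀ e ∉ Box r, ω e = ω' e) → (ω ∈ V ↔ ω' ∈ V)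

/-- Factorization near the origin, with constants `c` and error exponent `α`. Compare two local
structures `(G,A,E)`, `(G',A',E')` of the domain `D` (modifications in a box, finite sets, local
events) in the same surroundings: a domain `O` equal to `D` in the box of radius `r`, a target `T`,
further connections `L` between sets and an event `V`, all beyond the box. The probabilities are
proportional with the factor `c G A E / c G' A' E'`, up to a relative error `C r^(-α)`; `C` does not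
depend on the surroundings. -/
def Factorizes (D : Set Edge) (α : ℝ) (c : Set Edge → Set (ℤ × ℤ) → Set Conf → ℝ) : Prop :=
  ∀ (s : ℕ) (G G' : Set Edge) (A A' : Set (ℤ × ℤ)) (E E' : Set Conf),
    G \ Box s = D \ Box s → G' \ Box s = D \ Box s → A.Finite → A'.Finite → IsLocal E →
    IsLocal E' → 0 < c G' A' E' →
    ∃ (C : ℝ) (r₀ : ℕ), ∀ r : ℕ, r₀ ≤ r → ∀ (O : Set Edge) (T : Set (ℤ × ℤ))
      (L : List (Set (ℤ × ℤ) × Set (ℤ × ℤ))) (V : Set Conf),
    O ∩ Box r = D ∩ Box r → Beyond r T → (∀ q ∈ L, Beyond r q.1 ∧ Beyond r q.2) → IsFar r V →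
    |perc.real (E ∩ V ∩ Conn (Splice s G O) ((A, T) :: L)) -
        c G A E / c G' A' E' * perc.real (E' ∩ V ∩ Conn (Splice s G' O) ((A', T) :: L))| ≤
      C * (r:ℝ) ^ (-α) * perc.real (E' ∩ V ∩ Conn (Splice s G' O) ((A', T) :: L))

theorem adj_eq (G : Set Edge) (ω : Conf) : OpenAdj G ω = H974.Adj ({e | ω e = true} ∩ G) := by
  funext x y
  apply propext
  constructor
  · rintro ⟨e, h1, h2, h3⟩
    exact ⟨e, ⟨h2, h1⟩, h3⟩
  · rintro ⟨e, ⟨h2, h1⟩, h3⟩
    exact ⟨e, h1, h2, h3⟩

open Pool.Agent.U167.SA in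
open Classical in
theorem pw_eq {E : Set Conf} {m : ℕ} {W : Finset Edge → Prop}
    (hW : ∀ ω : Conf, ω ∈ E ↔ W ((H974.boxE m).filter (fun e => ω e = true)))
    (G : Set Edge) (A T : Set (ℤ × ℤ)) (L : List (Set (ℤ × ℤ) × Set (ℤ × ℤ))) (V : Set Conf) :
    perc.real (E ∩ V ∩ Conn G ((A, T) :: L)) = PW m W G A T L V := by
  unfold PW
  show percE.real _ = percE.real _
  congr 1
  ext ω
  simp only [Set.mem_inter_iff, Set.mem_ofPred_eq, Conn, List.mem_cons, forall_eq_or_imp, hW ω, Ev,
    Cj, Jn, Set.union_empty, and_assoc, adj_eq, H974.Reach]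

open Pool.Agent.U167.SA in
open Classical in
theorem prob_eq {E : Set Conf} {m : ℕ} {W : Finset Edge → Prop}
    (hW : ∀ ω : Conf, ω ∈ E ↔ W ((H974.boxE m).filter (fun e => ω e = true)))
    (G : Set Edge) (A : Set (ℤ × ℤ)) (n : ℤ) :
    perc.real (E ∩ Arm G A n) = PE m W G A n := by
  rw [← PW_PE, ← pw_eq hW, Set.inter_univ]
  rfl

theorem box_eq (r : ℕ) : Box r = ↑(H974.boxE r) := by
  ext e
  obtain ⟨x, y, _ | _⟩ := e
  · rw [Finset.mem_coe, Pool.Agent.U167.SA.mem_boxE_false]
    simp only [Box, Set.mem_ofPred_eq, fst, snd, Bool.false_eq_true, if_false, abs_le]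
    omega
  · rw [Finset.mem_coe, Pool.Agent.U167.SA.mem_boxE_true]
    simp only [Box, Set.mem_ofPred_eq, fst, snd, if_true, abs_le]
    omega

theorem splice_eq (s : ℕ) (G O : Set Edge) : Splice s G O = Pool.Agent.U167.SA.loc s G O := by
  unfold Splice Pool.Agent.U167.SA.loc
  rw [box_eq]

theorem beyond_iff {r : ℕ} {S : Set (ℤ × ℤ)} : Beyond r S → Pool.Agent.U167.SA.Fr r S := by
  intro h v hv hin
  have := h v hv
  unfold Pool.Agent.U167.SA.inB H974.inR at hin
  rcases this with h1 | h1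
  · rw [lt_abs] at h1
    omega
  · rw [lt_abs] at h1
    omega

theorem out_iff {s : ℕ} {G D : Set Edge} (h : G \ Box s = D \ Box s) :
    ∀ e ∉ H974.boxE s, (e ∈ G ↔ e ∈ D) := by
  intro e he
  have he' : e ∉ Box s := by rw [box_eq]; exact_mod_cast he
  constructor
  · intro h1
    exact ((Set.ext_iff.mp h e).mp ⟨h1, he'⟩).1
  · intro h1
    exact ((Set.ext_iff.mp h e).mpr ⟨h1, he'⟩).1

theorem fin_of_out {s : ℕ} {G D : Set Edge} (h : G \ Box s = D \ Box s) : FinDiff G D := by
  refine (H974.boxE s).finite_toSet.subset ?_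
  intro e he
  by_contra hcon
  have := out_iff h e (by exact_mod_cast hcon)
  rcases he with ⟨h1, h2⟩ | ⟨h1, h2⟩
  · exact h2 (this.mp h1)
  · exact h2 (this.mpr h1)

open Pool.Agent.U167.SA in
/-- factorization from the library form -/
theorem factorizes_of {D : Set Edge} {α : ℝ} (hF : FactP D α)
    {c : Set Edge → Set (ℤ × ℤ) → Set Conf → ℝ} {a : ℕ → ℝ} {N : ℕ → ℤ} (ha : ∀ n, 0 ≤ a n)
    (hN : Tendsto N atTop atTop)
    (hc : ∀ (G : Set Edge) (A : Set (ℤ × ℤ)) (E : Set Conf), FinDiff G D → A.Finite → IsLocal E →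
      Tendsto (fun n : ℕ => perc.real (E ∩ Arm G A (N n)) * a n) atTop (𝓝 (c G A E))) :
    Factorizes D α c := by
  intro s G G' A A' E E' hG hG' hA hA' hE hE' hpos
  obtain ⟨m, W, hW⟩ := local_box hE
  obtain ⟨m', W', hW'⟩ := local_box hE'
  obtain ⟨rA, hrA⟩ := finite_inB hA
  obtain ⟨rA', hrA'⟩ := finite_inB hA'
  obtain ⟨t, ht⟩ : ∃ t : ℕ, t = s + rA + rA' := ⟨_, rfl⟩
  have hGo := out_iff hG
  have hGo' := out_iff hG'
  have hcG := hc G A E (fin_of_out hG) hA hE
  have hcG' := hc G' A' E' (fin_of_out hG') hA' hE'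
  simp only [prob_eq hW] at hcG
  simp only [prob_eq hW'] at hcG'
  obtain ⟨C, r0, -, hr⟩ := hF t m m' W W' G G' A A'
    (fun e he => hGo e (fun h => he (H974.boxE_mono (by omega) h)))
    (fun e he => hGo' e (fun h => he (H974.boxE_mono (by omega) h)))
    (fun v hv => inB_mono (by omega) (hrA v hv)) (fun v hv => inB_mono (by omega) (hrA' v hv))
    a N (c G A E) (c G' A' E') ha hN hcG hcG' hpos
  refine ⟨C, r0 + t, fun r hr0 O T L V hO hT hL hV => ?_⟩
  have hOe : ∀ e ∈ H974.boxE r, (e ∈ O ↔ e ∈ D) := by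
    intro e he
    have he' : e ∈ Box r := by rw [box_eq]; exact_mod_cast he
    constructor
    · intro h1
      exact ((Set.ext_iff.mp hO e).mp ⟨h1, he'⟩).1
    · intro h1
      exact ((Set.ext_iff.mp hO e).mpr ⟨h1, he'⟩).1
  have hloc : ∀ H : Set Edge, (∀ e ∉ H974.boxE s, (e ∈ H ↔ e ∈ D)) → Splice s H O = loc t H O := by
    intro H hH
    rw [splice_eq]
    ext e
    by_cases hes : e ∈ H974.boxE s
    · rw [loc_in hes, loc_in (H974.boxE_mono (by omega) hes)]
    · by_cases het : e ∈ H974.boxE t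
      · rw [loc_out hes, loc_in het, hOe e (H974.boxE_mono (by omega) het), hH e hes]
      · rw [loc_out hes, loc_out het]
  rw [hloc G hGo, hloc G' hGo', pw_eq hW, pw_eq hW']
  refine hr r (by omega) O T L V hOe (beyond_iff hT)
    (fun q hq => ⟨beyond_iff (hL q hq).1, beyond_iff (hL q hq).2⟩) hV.1 ?_
  intro ω ω' h
  apply hV.2
  intro e he
  apply h
  intro h'
  apply he
  rw [box_eq]
  exact_mod_cast h'

/-- **Sharp asymptotics and factorization at the boundary of the square lattice.**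
(1) Half-planes with a bounded boundary line `w` which jumps by at most one (with finitely many
exceptions), their finite modifications `G`, finite sets `A`, local events `E`: the probability of
`E` and an arm from `A` to the column `n` is asymptotic to `c G A E n^(-1/3)`, with a power law
error term for straight lines; all far connection probabilities factorize with these constants.
(2) The constant of the straight half-plane. -/
theorem result :
    (∀ w : ℤ → ℤ, (∃ J : ℤ, ∀ h, |w h| ≤ J) → {h : ℤ | 1 < |w (h + 1) - w h|}.Finite →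
      ∃ (α : ℝ) (c : Set Edge → Set (ℤ × ℤ) → Set Conf → ℝ), 0 < α ∧ Factorizes (Half w) α c ∧
        ∀ (G : Set Edge) (A : Set (ℤ × ℤ)) (E : Set Conf), FinDiff G (Half w) → A.Finite →
          IsLocal E → 0 ≤ c G A E ∧
          Tendsto (fun n : ℕ => perc.real (E ∩ Arm G A n) * (n:ℝ) ^ ((1:ℝ)/3)) atTop
            (𝓝 (c G A E)) ∧
          (0 < c G A E ∨ ∀ᶠ n : ℕ in atTop, perc.real (E ∩ Arm G A n) = 0) ∧
          ((∃ a : ℤ, w = fun _ => a) → ∃ C : ℝ, ∀ᶠ n : ℕ in atTop,
            |perc.real (E ∩ Arm G A n) * (n:ℝ) ^ ((1:ℝ)/3) - c G A E| ≤ C * (n:ℝ) ^ (-α))) ∧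
    Tendsto (fun n : ℕ => perc.real (Arm (Half (fun _ => 0)) {(1, 0)} n) * (n:ℝ) ^ ((1:ℝ)/3)) atTop
      (𝓝 (9 / 4 * Real.Gamma (2/3) / Real.Gamma (1/3))) := by
  refine ⟨?_, ?_⟩
  · intro w h1 h2
    obtain ⟨s0, hs1, hs2⟩ := Pool.Agent.U167.SA.rough_const h1 h2
    obtain ⟨α, hα, hα1, hF⟩ := Pool.Agent.U167.SA.fact_one
      (Pool.Agent.U167.SA.a_SWEW hs1 hs2)
    have hex : ∀ (G : Set Edge) (A : Set (ℤ × ℤ)) (E : Set Conf), ∃ c : ℝ, FinDiff G (Half w) →
        A.Finite → IsLocal E → 0 ≤ c ∧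
        Tendsto (fun n : ℕ => perc.real (E ∩ Arm G A n) * (n:ℝ) ^ ((1:ℝ)/3)) atTop (𝓝 c) ∧
        (0 < c ∨ ∀ᶠ n : ℕ in atTop, perc.real (E ∩ Arm G A n) = 0) := by
      intro G A E
      by_cases hG : FinDiff G (Half w)
      · by_cases hA : A.Finite
        · by_cases hE : IsLocal E
          · obtain ⟨m, W, hW⟩ := Pool.Agent.U167.SA.local_box hE
            obtain ⟨c, hc, hT, hp⟩ := Pool.Agent.U167.SA.a_F3 Pool.Agent.U167.SA.a_UNIW hs1 hs2
              (Pool.Agent.U167.SA.symm_box hG) (Pool.Agent.U167.SA.finite_inB hA) m W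
            simp only [prob_eq hW]
            exact ⟨c, fun _ _ _ => ⟨hc, hT, Pool.Agent.U167.SA.dich
              (fun n => Pool.Agent.U167.SA.PE_nonneg _ _ _ _ _) hp⟩⟩
          · exact ⟨0, fun _ _ h => absurd h hE⟩
        · exact ⟨0, fun _ h _ => absurd h hA⟩
      · exact ⟨0, fun h _ _ => absurd h hG⟩
    choose c hc using hex
    refine ⟨α, c, hα, ?_, ?_⟩
    · exact factorizes_of (D := Half w) (a := fun n => (n:ℝ) ^ ((1:ℝ)/3)) (N := fun n => (n:ℤ)) hF
        (fun n => by positivity) tendsto_natCast_atTop_atTop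
        (fun G A E hG hA hE => (hc G A E hG hA hE).2.1)
    · intro G A E hG hA hE
      obtain ⟨k1, k2, k3⟩ := hc G A E hG hA hE
      refine ⟨k1, k2, k3, ?_⟩
      rintro ⟨a, rfl⟩
      obtain ⟨m, W, hW⟩ := Pool.Agent.U167.SA.local_box hE
      simp only [prob_eq hW] at k2 ⊢
      exact Pool.Agent.U167.SA.rate_half a hα hα1 hF
        (Pool.Agent.U167.SA.symm_box hG) (Pool.Agent.U167.SA.finite_inB hA) m W k1 k2
  · have h := Pool.Agent.U167.SA.a_EX3
    unfold Pool.Agent.U167.SA.ExStm3 at h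
    refine h.congr fun n => ?_
    have h2 := prob_eq (E := Set.univ) (m := 0) (W := fun _ => True) (fun ω => by simp)
      (Half (fun _ => 0)) {(1, 0)} n
    rw [Set.univ_inter] at h2
    rw [h2, Pool.Agent.U167.SA.PEt]
    have h3 : Half (fun _ => 0) = Pool.Agent.U167.SA.Dm 0 0 := Pool.Agent.U167.SA.Dw_const 0
    rw [h3]

end Pool.Agent.Results.MP_35f495_pr.SharpBoundaryArms
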