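import Pool.Agent.U167.SA.Fact2
import Pool.Agent.R966.Tip.Scale

/-!
Critical bond percolation on `ℤ²` (`p = 1/2`) at the tip of a slit: every local field (finite
modification of the domain, finite set, local event) has a sharp one-point function, conformally
covariant in all slit strips with the same covariance factor `κ^(-1/6) (1-x)^(-1/3)`, with power law
errors; all far connection probabilities factorize with the same constants.

Coordinates: the column of the vertex `(u,v)` is `u - v`, its height is `u + v` (rotation by 45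
degrees).
-/

set_option autoImplicit false

namespace Pool.Agent.Results.MP_35f495_pr.SlitTipLocalFields

open MeasureTheory Filter Topology Set

/-- Edges of `ℤ²`: `(u,v,true)` joins `(u,v)` and `(u+1,v)`; `(u,v,false)` joins `(u,v)` and
`(u,v+1)`. -/
abbrev Edge := ℤ × ℤ × Bool

/-- First end of an edge. -/
def fst (e : Edge) : ℤ × ℤ := (e.1, e.2.1)

/-- Second end of an edge. -/
def snd (e : Edge) : ℤ × ℤ := if e.2.2 then (e.1 + 1, e.2.1) else (e.1, e.2.1 + 1)

/-- Configurations (`true` = open). -/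
abbrev Conf := Edge → Bool

/-- Critical bond percolation: independent fair coins on the edges. -/
noncomputable def perc : Measure Conf :=
  Measure.infinitePi (fun _ : Edge => (PMF.uniformOfFintype Bool).toMeasure)

/-- The column of a vertex. -/
def col (x : ℤ × ℤ) : ℤ := x.1 - x.2

/-- The height of a vertex. -/
def height (x : ℤ × ℤ) : ℤ := x.1 + x.2

/-- `x` and `y` are the two ends of an open edge of `G`. -/
def OpenAdj (G : Set Edge) (ω : Conf) (x y : ℤ × ℤ) : Prop :=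
  ∃ e ∈ G, ω e = true ∧ ((fst e = x ∧ snd e = y) ∨ (fst e = y ∧ snd e = x))

/-- For each pair of the list, a vertex of the first set is joined to a vertex of the second set by
an open path of edges of `G`. -/
def Conn (G : Set Edge) (L : List (Set (ℤ × ℤ) × Set (ℤ × ℤ))) : Set Conf :=
  {ω | ∀ q ∈ L, ∃ x ∈ q.1, ∃ y ∈ q.2, Relation.ReflTransGen (OpenAdj G ω) x y}

/-- A vertex of `A` is joined to the column `n` by an open path of edges of `G`. -/
def Arm (G : Set Edge) (A : Set (ℤ × ℤ)) (n : ℤ) : Set Conf := Conn G [(A, {x | col x = n})]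

/-- The plane slit along the part of the column `1` above the tip `(1,0)`: the edges with both ends
at height `≥ 1` and an end in the column `1` are removed. -/
def Slit : Set Edge := {e | ¬ (1 ≤ height (fst e) ∧ 1 ≤ height (snd e) ∧
  (col (fst e) = 1 ∨ col (snd e) = 1))}

/-- The edges with both ends in the columns `[1-p, 1+r]`. -/
def Strip (p r : ℕ) : Set Edge := {e | (1 - (p:ℤ) ≤ col (fst e) ∧ col (fst e) ≤ 1 + r) ∧
  (1 - (p:ℤ) ≤ col (snd e) ∧ col (snd e) ≤ 1 + r)}

/-- `G` and `D` differ in finitely many edges. -/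
def FinDiff (G D : Set Edge) : Prop := ((G \ D) ∪ (D \ G)).Finite

/-- The event depends on finitely many edges. -/
def IsLocal (E : Set Conf) : Prop :=
  ∃ T : Finset Edge, ∀ ω ω' : Conf, (∀ e ∈ T, ω e = ω' e) → (ω ∈ E ↔ ω' ∈ E)

/-- The edges with both ends in the box `|u| ≤ r`, `|v| ≤ r`. -/
def Box (r : ℕ) : Set Edge := {e | (|(fst e).1| ≤ r ∧ |(fst e).2| ≤ r) ∧
  (|(snd e).1| ≤ r ∧ |(snd e).2| ≤ r)}

/-- `G` in the box of radius `s`, `O` outside. -/
def Splice (s : ℕ) (G O : Set Edge) : Set Edge := (G ∩ Box s) ∪ (O \ Box s)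

/-- The set of vertices lies outside the box. -/
def Beyond (r : ℕ) (S : Set (ℤ × ℤ)) : Prop := ∀ x ∈ S, (r:ℤ) < |x.1| ∨ (r:ℤ) < |x.2|

/-- The event is measurable and depends only on edges which are not in the box. -/
def IsFar (r : ℕ) (V : Set Conf) : Prop :=
  MeasurableSet V ∧ ∀ ω ω' : Conf, (∀ e ∉ Box r, ω e = ω' e) → (ω ∈ V ↔ ω' ∈ V)

/-- Factorization near the origin, with constants `c` and error exponent `α`. Compare two local
structures `(G,A,E)`, `(G',A',E')` of the domain `D` (modifications in a box, finite sets, local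
events) in the same surroundings: a domain `O` equal to `D` in the box of radius `r`, a target `T`,
further connections `L` between sets and an event `V`, all beyond the box. The probabilities are
proportional with the factor `c G A E / c G' A' E'`, up to a relative error `C r^(-α)`; `C` does not
depend on the surroundings. -/
def Factorizes (D : Set Edge) (α : ℝ) (c : Set Edge → Set (ℤ × ℤ) → Set Conf → ℝ) : Prop :=
  ∀ (s : ℕ) (G G' : Set Edge) (A A' : Set (ℤ × ℤ)) (E E' : Set Conf),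
    G \ Box s = D \ Box s → G' \ Box s = D \ Box s → A.Finite → A'.Finite → IsLocal E →
    IsLocal E' → 0 < c G' A' E' →
    ∃ (C : ℝ) (r₀ : ℕ), ∀ r : ℕ, r₀ ≤ r → ∀ (O : Set Edge) (T : Set (ℤ × ℤ))
      (L : List (Set (ℤ × ℤ) × Set (ℤ × ℤ))) (V : Set Conf),
    O ∩ Box r = D ∩ Box r → Beyond r T → (∀ q ∈ L, Beyond r q.1 ∧ Beyond r q.2) → IsFar r V →
    |perc.real (E ∩ V ∩ Conn (Splice s G O) ((A, T) :: L)) -
        c G A E / c G' A' E' * perc.real (E' ∩ V ∩ Conn (Splice s G' O) ((A', T) :: L))| ≤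
      C * (r:ℝ) ^ (-α) * perc.real (E' ∩ V ∩ Conn (Splice s G' O) ((A', T) :: L))

/-- The slit strip `{-a < X < b} \ {X = 0, Y ≥ 0}`. -/
def Dom (a b : ℝ) : Set ℂ := {w | -a < w.re ∧ w.re < b ∧ (w.re = 0 → w.im < 0)}

/-- `f` is an orientation reversing conformal map of the upper half-plane onto the slit strip, with
the boundary correspondence: left wall, left bank of the slit, tip, right bank, right wall
= `(-∞,0)`, `(0,x)`, `x`, `(x,1)`, `(1,∞)`. -/
structure Uniformizes (a b x : ℝ) (f : ℂ → ℂ) : Prop where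
  /-- the complex conjugate of `f` is holomorphic in the upper half-plane -/
  holo : DifferentiableOn ℂ (fun z => (starRingEnd ℂ) (f z)) {z | 0 < z.im}
  /-- `f` is a bijection of the upper half-plane onto the slit strip -/
  bij : BijOn f {z | 0 < z.im} (Dom a b)
  /-- `f` is continuous up to the boundary (without `0`, `1`) -/
  cont : ContinuousOn f {z : ℂ | 0 ≤ z.im ∧ z ≠ 0 ∧ z ≠ 1}
  /-- `(-∞,0)` is mapped to the left wall -/
  leftWall : BijOn (fun t : ℝ => f t) (Iio 0) {w | w.re = -a}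
  /-- `(1,∞)` is mapped to the right wall -/
  rightWall : BijOn (fun t : ℝ => f t) (Ioi 1) {w | w.re = b}
  /-- `(0,x)` is mapped to the left bank of the slit -/
  leftBank : BijOn (fun t : ℝ => f t) (Ioo 0 x) {w | w.re = 0 ∧ 0 < w.im}
  leftBank' : ∀ t ∈ Ioo 0 x, ∀ᶠ z in 𝓝[{z : ℂ | 0 < z.im}] (t : ℂ), (f z).re < 0
  /-- `(x,1)` is mapped to the right bank of the slit -/
  rightBank : BijOn (fun t : ℝ => f t) (Ioo x 1) {w | w.re = 0 ∧ 0 < w.im}
  rightBank' : ∀ t ∈ Ioo x 1, ∀ᶠ z in 𝓝[{z : ℂ | 0 < z.im}] (t : ℂ), 0 < (f z).re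
  /-- `x` is mapped to the tip of the slit -/
  tip : f (x : ℂ) = 0

theorem adj_eq (G : Set Edge) (ω : Conf) : OpenAdj G ω = H974.Adj ({e | ω e = true} ∩ G) := by
  funext x y
  apply propext
  constructor
  · rintro ⟨e, h1, h2, h3⟩
    exact ⟨e, ⟨h2, h1⟩, h3⟩
  · rintro ⟨e, ⟨h2, h1⟩, h3⟩
    exact ⟨e, h1, h2, h3⟩

open Pool.Agent.U167.SA in
open Classical in
theorem pw_eq {E : Set Conf} {m : ℕ} {W : Finset Edge → Prop}
    (hW : ∀ ω : Conf, ω ∈ E ↔ W ((H974.boxE m).filter (fun e => ω e = true)))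
    (G : Set Edge) (A T : Set (ℤ × ℤ)) (L : List (Set (ℤ × ℤ) × Set (ℤ × ℤ))) (V : Set Conf) :
    perc.real (E ∩ V ∩ Conn G ((A, T) :: L)) = PW m W G A T L V := by
  unfold PW
  show percE.real _ = percE.real _
  congr 1
  ext ω
  simp only [Set.mem_inter_iff, Set.mem_ofPred_eq, Conn, List.mem_cons, forall_eq_or_imp, hW ω, Ev,
    Cj, Jn, Set.union_empty, and_assoc, adj_eq, H974.Reach]

open Pool.Agent.U167.SA in
open Classical in
theorem prob_eq {E : Set Conf} {m : ℕ} {W : Finset Edge → Prop}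
    (hW : ∀ ω : Conf, ω ∈ E ↔ W ((H974.boxE m).filter (fun e => ω e = true)))
    (G : Set Edge) (A : Set (ℤ × ℤ)) (n : ℤ) :
    perc.real (E ∩ Arm G A n) = PE m W G A n := by
  rw [← PW_PE, ← pw_eq hW, Set.inter_univ]
  rfl

theorem box_eq (r : ℕ) : Box r = ↑(H974.boxE r) := by
  ext e
  obtain ⟨x, y, _ | _⟩ := e
  · rw [Finset.mem_coe, Pool.Agent.U167.SA.mem_boxE_false]
    simp only [Box, Set.mem_ofPred_eq, fst, snd, Bool.false_eq_true, if_false, abs_le]
    omega
  · rw [Finset.mem_coe, Pool.Agent.U167.SA.mem_boxE_true]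
    simp only [Box, Set.mem_ofPred_eq, fst, snd, if_true, abs_le]
    omega

theorem splice_eq (s : ℕ) (G O : Set Edge) : Splice s G O = Pool.Agent.U167.SA.loc s G O := by
  unfold Splice Pool.Agent.U167.SA.loc
  rw [box_eq]

theorem beyond_iff {r : ℕ} {S : Set (ℤ × ℤ)} : Beyond r S → Pool.Agent.U167.SA.Fr r S := by
  intro h v hv hin
  have := h v hv
  unfold Pool.Agent.U167.SA.inB H974.inR at hin
  rcases this with h1 | h1
  · rw [lt_abs] at h1
    omega
  · rw [lt_abs] at h1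
    omega

theorem out_iff {s : ℕ} {G D : Set Edge} (h : G \ Box s = D \ Box s) :
    ∀ e ∉ H974.boxE s, (e ∈ G ↔ e ∈ D) := by
  intro e he
  have he' : e ∉ Box s := by rw [box_eq]; exact_mod_cast he
  constructor
  · intro h1
    exact ((Set.ext_iff.mp h e).mp ⟨h1, he'⟩).1
  · intro h1
    exact ((Set.ext_iff.mp h e).mpr ⟨h1, he'⟩).1

theorem fin_of_out {s : ℕ} {G D : Set Edge} (h : G \ Box s = D \ Box s) : FinDiff G D := by
  refine (H974.boxE s).finite_toSet.subset ?_
  intro e he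
  by_contra hcon
  have := out_iff h e (by exact_mod_cast hcon)
  rcases he with ⟨h1, h2⟩ | ⟨h1, h2⟩
  · exact h2 (this.mp h1)
  · exact h2 (this.mpr h1)

open Pool.Agent.U167.SA in
/-- factorization from the library form -/
theorem factorizes_of {D : Set Edge} {α : ℝ} (hF : FactP D α)
    {c : Set Edge → Set (ℤ × ℤ) → Set Conf → ℝ} {a : ℕ → ℝ} {N : ℕ → ℤ} (ha : ∀ n, 0 ≤ a n)
    (hN : Tendsto N atTop atTop)
    (hc : ∀ (G : Set Edge) (A : Set (ℤ × ℤ)) (E : Set Conf), FinDiff G D → A.Finite → IsLocal E →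
      Tendsto (fun n : ℕ => perc.real (E ∩ Arm G A (N n)) * a n) atTop (𝓝 (c G A E))) :
    Factorizes D α c := by
  intro s G G' A A' E E' hG hG' hA hA' hE hE' hpos
  obtain ⟨m, W, hW⟩ := local_box hE
  obtain ⟨m', W', hW'⟩ := local_box hE'
  obtain ⟨rA, hrA⟩ := finite_inB hA
  obtain ⟨rA', hrA'⟩ := finite_inB hA'
  obtain ⟨t, ht⟩ : ∃ t : ℕ, t = s + rA + rA' := ⟨_, rfl⟩
  have hGo := out_iff hG
  have hGo' := out_iff hG'
  have hcG := hc G A E (fin_of_out hG) hA hE
  have hcG' := hc G' A' E' (fin_of_out hG') hA' hE'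
  simp only [prob_eq hW] at hcG
  simp only [prob_eq hW'] at hcG'
  obtain ⟨C, r0, -, hr⟩ := hF t m m' W W' G G' A A'
    (fun e he => hGo e (fun h => he (H974.boxE_mono (by omega) h)))
    (fun e he => hGo' e (fun h => he (H974.boxE_mono (by omega) h)))
    (fun v hv => inB_mono (by omega) (hrA v hv)) (fun v hv => inB_mono (by omega) (hrA' v hv))
    a N (c G A E) (c G' A' E') ha hN hcG hcG' hpos
  refine ⟨C, r0 + t, fun r hr0 O T L V hO hT hL hV => ?_⟩
  have hOe : ∀ e ∈ H974.boxE r, (e ∈ O ↔ e ∈ D) := by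
    intro e he
    have he' : e ∈ Box r := by rw [box_eq]; exact_mod_cast he
    constructor
    · intro h1
      exact ((Set.ext_iff.mp hO e).mp ⟨h1, he'⟩).1
    · intro h1
      exact ((Set.ext_iff.mp hO e).mpr ⟨h1, he'⟩).1
  have hloc : ∀ H : Set Edge, (∀ e ∉ H974.boxE s, (e ∈ H ↔ e ∈ D)) → Splice s H O = loc t H O := by
    intro H hH
    rw [splice_eq]
    ext e
    by_cases hes : e ∈ H974.boxE s
    · rw [loc_in hes, loc_in (H974.boxE_mono (by omega) hes)]
    · by_cases het : e ∈ H974.boxE t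
      · rw [loc_out hes, loc_in het, hOe e (H974.boxE_mono (by omega) het), hH e hes]
      · rw [loc_out hes, loc_out het]
  rw [hloc G hGo, hloc G' hGo', pw_eq hW, pw_eq hW']
  refine hr r (by omega) O T L V hOe (beyond_iff hT)
    (fun q hq => ⟨beyond_iff (hL q hq).1, beyond_iff (hL q hq).2⟩) hV.1 ?_
  intro ω ω' h
  apply hV.2
  intro e he
  apply h
  intro h'
  apply he
  rw [box_eq]
  exact_mod_cast h'

/-- rescaling of the factor of the slit strips -/
theorem scale {α β K : ℝ} (hα : 0 < α) (hβ : 0 < β) {P : ℕ → ℕ → ℝ}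
    {C a : ℝ} {R : ℕ} (ha : 0 < a)
    (h : ∀ p r : ℕ, R ≤ p → R ≤ r →
      |P p r * ((r : ℝ) * (p + r) / p) ^ ((1:ℝ)/6) - K| ≤ C * ((min p r : ℕ) : ℝ) ^ (-a))
    (δ : ℕ → ℝ) (p r : ℕ → ℕ) (hδ : ∀ n, 0 < δ n) (hδ0 : Tendsto δ atTop (𝓝 0))
    (hp : Tendsto (fun n => δ n * p n) atTop (𝓝 α)) (hr : Tendsto (fun n => δ n * r n) atTop (𝓝 β)) :
    Tendsto (fun n => P (p n) (r n) * (δ n) ^ (-((1:ℝ)/6))) atTop
      (𝓝 (K * (α / (β * (α + β))) ^ ((1:ℝ)/6))) := by
  have hinv : Tendsto (fun n => (δ n)⁻¹) atTop atTop :=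
    (tendsto_nhdsWithin_iff.mpr ⟨hδ0, Eventually.of_forall hδ⟩).inv_tendsto_nhdsGT_zero
  have tp : Tendsto p atTop atTop := by
    rw [← tendsto_natCast_atTop_iff (R := ℝ)]
    refine (hinv.atTop_mul_pos hα hp).congr fun n => ?_
    rw [← mul_assoc, inv_mul_cancel₀ (hδ n).ne', one_mul]
  have tr : Tendsto r atTop atTop := by
    rw [← tendsto_natCast_atTop_iff (R := ℝ)]
    refine (hinv.atTop_mul_pos hβ hr).congr fun n => ?_
    rw [← mul_assoc, inv_mul_cancel₀ (hδ n).ne', one_mul]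
  have tm : Tendsto (fun n => ((min (p n) (r n) : ℕ) : ℝ)) atTop atTop :=
    tendsto_natCast_atTop_atTop.comp (tendsto_atTop.mpr fun k => by
      filter_upwards [tp.eventually_ge_atTop k, tr.eventually_ge_atTop k] with n n1 n2
      exact le_min n1 n2)
  have h1 : Tendsto (fun n => P (p n) (r n) * ((r n : ℝ) * (p n + r n) / p n) ^ ((1:ℝ)/6)) atTop
      (𝓝 K) := by
    have h0 : Tendsto (fun n => C * ((min (p n) (r n) : ℕ) : ℝ) ^ (-a)) atTop (𝓝 0) := by
      have := ((tendsto_rpow_neg_atTop ha).comp tm).const_mul C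
      rw [mul_zero] at this
      exact this
    rw [tendsto_iff_norm_sub_tendsto_zero]
    refine squeeze_zero' (Eventually.of_forall fun n => norm_nonneg _) ?_ h0
    filter_upwards [tp.eventually_ge_atTop R, tr.eventually_ge_atTop R] with n n1 n2
    rw [Real.norm_eq_abs]
    exact h (p n) (r n) n1 n2
  have hab : 0 < α + β := add_pos hα hβ
  have h2 : Tendsto (fun n => ((δ n * p n) / ((δ n * r n) * (δ n * p n + δ n * r n)))^((1:ℝ)/6)) atTop
      (𝓝 ((α / (β * (α + β)))^((1:ℝ)/6))) :=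
    (hp.div (hr.mul (hp.add hr)) (by positivity)).rpow_const (Or.inr (by norm_num))
  refine (h1.mul h2).congr' ?_
  filter_upwards [tp.eventually_gt_atTop 0, tr.eventually_gt_atTop 0] with n n1 n2
  have q1 : (0:ℝ) < p n := by exact_mod_cast n1
  have q2 : (0:ℝ) < r n := by exact_mod_cast n2
  have q3 := hδ n
  rw [mul_assoc, ← Real.mul_rpow (by positivity) (by positivity), Real.rpow_neg q3.le,
    ← Real.inv_rpow q3.le]
  congr 2
  field_simp

/-- **Local fields at the tip of a slit.** There are an exponent `α > 0` and constants `c G A E` for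
the finite modifications `G` of the slit plane, the finite sets `A` and the local events `E`, such
that (1) all far connection probabilities at the tip factorize with these constants; (2) the constant
of the tip itself is `√π / Γ(1/3)`; (3) sharp asymptotics in all slit strips and (4) in the slit
plane; (5) scaling limit in the slit strip with the distances `a`, `b` of the slit to the two walls,
in terms of its conformal map `f`, which takes `x = a/(a+b)` to the tip and behaves like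
`κ (z-x)²` there. -/
theorem result :
    ∃ (α : ℝ) (c : Set Edge → Set (ℤ × ℤ) → Set Conf → ℝ), 0 < α ∧ Factorizes Slit α c ∧
      c Slit {(1, 0)} Set.univ = √Real.pi / Real.Gamma (1/3) ∧
      (∀ (G : Set Edge) (A : Set (ℤ × ℤ)) (E : Set Conf), FinDiff G Slit → A.Finite → IsLocal E →
        0 ≤ c G A E ∧
        (0 < c G A E ∨ ∀ᶠ r : ℕ in atTop, perc.real (E ∩ Arm G A (1 + r)) = 0) ∧
        ∃ (C : ℝ) (R : ℕ), (∀ p r : ℕ, R ≤ p → R ≤ r →
          |perc.real (E ∩ Arm (G ∩ Strip p r) A (1 + r)) *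
            ((r : ℝ) * (p + r) / p) ^ ((1:ℝ)/6) - c G A E| ≤ C * ((min p r : ℕ) : ℝ) ^ (-α)) ∧
          ∀ r : ℕ, R ≤ r →
            |perc.real (E ∩ Arm G A (1 + r)) * (r : ℝ) ^ ((1:ℝ)/6) - c G A E| ≤
              C * (r:ℝ) ^ (-α)) ∧
      ∀ a b : ℝ, 0 < a → 0 < b → ∃ (f : ℂ → ℂ) (κ : ℝ), Uniformizes a b (a / (a + b)) f ∧ 0 < κ ∧
        Tendsto (fun z : ℂ => ‖f z‖ / ‖z - (a / (a + b) : ℝ)‖ ^ 2)
          (𝓝[{z : ℂ | 0 < z.im}] ((a / (a + b) : ℝ) : ℂ)) (𝓝 κ) ∧
        ∀ (G : Set Edge) (A : Set (ℤ × ℤ)) (E : Set Conf), FinDiff G Slit → A.Finite → IsLocal E →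
          ∀ (δ : ℕ → ℝ) (p r : ℕ → ℕ), (∀ n, 0 < δ n) → Tendsto δ atTop (𝓝 0) →
            Tendsto (fun n => δ n * p n) atTop (𝓝 a) → Tendsto (fun n => δ n * r n) atTop (𝓝 b) →
            Tendsto (fun n => perc.real (E ∩ Arm (G ∩ Strip (p n) (r n)) A (1 + r n)) *
              (δ n) ^ (-((1:ℝ)/6))) atTop
              (𝓝 (c G A E * (2 * Real.pi * κ) ^ (-((1:ℝ)/6)) *
                (1 - a / (a + b)) ^ (-((1:ℝ)/3)))) := by
  obtain ⟨α, hα, hα1, hF⟩ := Pool.Agent.U167.SA.fact_one Pool.Agent.U167.SA.a_SWES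
  have hex : ∀ (G : Set Edge) (A : Set (ℤ × ℤ)) (E : Set Conf), ∃ c : ℝ, FinDiff G Slit →
      A.Finite → IsLocal E → 0 ≤ c ∧
      Tendsto (fun r : ℕ => perc.real (E ∩ Arm G A (1 + r)) * (r : ℝ) ^ ((1:ℝ)/6)) atTop (𝓝 c) ∧
      (0 < c ∨ ∀ᶠ r : ℕ in atTop, perc.real (E ∩ Arm G A (1 + r)) = 0) := by
    intro G A E
    by_cases hG : FinDiff G Slit
    · by_cases hA : A.Finite
      · by_cases hE : IsLocal E
        · obtain ⟨m, W, hW⟩ := Pool.Agent.U167.SA.local_box hE
          obtain ⟨c, hc, -, hT2, hp⟩ := Pool.Agent.U167.SA.a_F2' (G := G) (A := A)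
            (Pool.Agent.U167.SA.symm_box hG) (Pool.Agent.U167.SA.finite_inB hA) m W
          simp only [prob_eq hW]
          exact ⟨c, fun _ _ _ => ⟨hc, hT2, Pool.Agent.U167.SA.dich
            (fun n => Pool.Agent.U167.SA.PE_nonneg _ _ _ _ _) hp⟩⟩
        · exact ⟨0, fun _ _ h => absurd h hE⟩
      · exact ⟨0, fun _ h _ => absurd h hA⟩
    · exact ⟨0, fun h _ _ => absurd h hG⟩
  choose c hc using hex
  have hmain : ∀ (G : Set Edge) (A : Set (ℤ × ℤ)) (E : Set Conf), FinDiff G Slit → A.Finite →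
      IsLocal E →
      0 ≤ c G A E ∧
      (0 < c G A E ∨ ∀ᶠ r : ℕ in atTop, perc.real (E ∩ Arm G A (1 + r)) = 0) ∧
      ∃ (C : ℝ) (R : ℕ), (∀ p r : ℕ, R ≤ p → R ≤ r →
        |perc.real (E ∩ Arm (G ∩ Strip p r) A (1 + r)) *
          ((r : ℝ) * (p + r) / p) ^ ((1:ℝ)/6) - c G A E| ≤ C * ((min p r : ℕ) : ℝ) ^ (-α)) ∧
        ∀ r : ℕ, R ≤ r →
          |perc.real (E ∩ Arm G A (1 + r)) * (r : ℝ) ^ ((1:ℝ)/6) - c G A E| ≤
            C * (r:ℝ) ^ (-α) := by
    intro G A E hG hA hE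
    obtain ⟨k1, k2, k3⟩ := hc G A E hG hA hE
    refine ⟨k1, k3, ?_⟩
    obtain ⟨m, W, hW⟩ := Pool.Agent.U167.SA.local_box hE
    simp only [prob_eq hW] at k2 ⊢
    exact Pool.Agent.U167.SA.rate_slit hα hα1 hF
      (Pool.Agent.U167.SA.symm_box hG) (Pool.Agent.U167.SA.finite_inB hA) m W k1 k2
  refine ⟨α, c, hα, ?_, ?_, hmain, ?_⟩
  · exact factorizes_of (D := Slit) (a := fun n => (n:ℝ) ^ ((1:ℝ)/6)) (N := fun n => 1 + (n:ℤ)) hF
      (fun n => by positivity)
      (tendsto_atTop_add_const_left _ _ tendsto_natCast_atTop_atTop)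
      (fun G A E hG hA hE => (hc G A E hG hA hE).2.1)
  · have hl : IsLocal (Set.univ : Set Conf) := ⟨∅, fun _ _ _ => Iff.rfl⟩
    have hd : FinDiff Slit Slit := by
      unfold FinDiff
      simp
    have k2 := (hc Slit {(1, 0)} Set.univ hd (Set.finite_singleton _) hl).2.1
    refine tendsto_nhds_unique k2 ?_
    have h := Pool.Agent.U167.SA.t_EX4 Pool.Agent.U167.SA.a_PERC
    unfold Pool.Agent.U167.SA.ExStm4 at h
    refine h.congr fun n => ?_
    have h2 := prob_eq (E := Set.univ) (m := 0) (W := fun _ => True) (fun ω => by simp) Slit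
      {(1, 0)} (1 + (n:ℤ))
    rw [h2, Pool.Agent.U167.SA.PEt]
    rfl
  · intro a b ha hb
    have hf := Pool.Agent.H863R4.uniformizes ha hb
    have hκ : 0 < Pool.Agent.R966.Tip.kq a b / Real.pi := by
      have := Real.pi_pos
      unfold Pool.Agent.R966.Tip.kq
      positivity
    refine ⟨Pool.Agent.H863R4.phi a b, Pool.Agent.R966.Tip.kq a b / Real.pi,
      ⟨hf.holo, hf.bij, hf.cont, hf.leftWall, hf.rightWall, hf.leftBank, hf.leftBank',
        hf.rightBank, hf.rightBank', hf.tip⟩, hκ, Pool.Agent.R966.Tip.phi_quad ha hb, ?_⟩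
    intro G A E hG hA hE δ p r h1 h2 h3 h4
    obtain ⟨-, -, C, R, hCR, -⟩ := hmain G A E hG hA hE
    have key := scale ha hb hα (P := fun p r => perc.real (E ∩ Arm (G ∩ Strip p r) A (1 + r)))
      hCR δ p r h1 h2 h3 h4
    have e : (a / (b * (a + b))) ^ ((1:ℝ)/6) =
        (2 * Real.pi * (Pool.Agent.R966.Tip.kq a b / Real.pi)) ^ (-((1:ℝ)/6)) *
          (1 - a / (a + b)) ^ (-((1:ℝ)/3)) := by
      have hl := Pool.Agent.R966.Tip.limit_eq ha hb
      have hpi := Real.pi_pos
      have hg : (0:ℝ) < Real.Gamma (1/3) := Real.Gamma_pos_of_pos (by norm_num)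
      have hs : (0:ℝ) < √Real.pi / Real.Gamma (1/3) := by positivity
      have h2π : (0:ℝ) < (2 * Real.pi) ^ ((1:ℝ)/6) := by positivity
      rw [Real.mul_rpow (by positivity) hκ.le, Real.rpow_neg (by positivity : (0:ℝ) ≤ 2 * Real.pi)]
      have hl' : √Real.pi / Real.Gamma (1/3) * (a / (b * (a + b))) ^ ((1:ℝ)/6) =
          √Real.pi / Real.Gamma (1/3) * (((2 * Real.pi) ^ ((1:ℝ)/6))⁻¹ *
            (Pool.Agent.R966.Tip.kq a b / Real.pi) ^ (-((1:ℝ)/6)) *
              (1 - a / (a + b)) ^ (-((1:ℝ)/3))) := by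
        rw [hl]
        field_simp
      exact mul_left_cancel₀ hs.ne' hl'
    rw [e] at key
    rw [mul_assoc]
    exact key

end Pool.Agent.Results.MP_35f495_pr.SlitTipLocalFields
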